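import Pool.Agent.Helper62.GX.Stm

/-!
# Cyclic covers with arbitrary exponents: statement

As `GX/Stm.lean`, but the exponents `e_l` are arbitrary: the eigen-summand `H_r` sees only the factors `a_l` with
`m ∤ r e_l`. The condition at infinity is the same.
-/

set_option autoImplicit false

open Polynomial Matrix Finset Filter NumberField IsDedekindDomain

namespace Pool.Agent.Helper62.JX

open Pool.Agent.Helper62.BM Pool.Agent.Helper62.BW Pool.Agent.Helper62.BX Pool.Agent.Helper62.CX
open Pool.Agent.Helper62.GX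

/-- The factors which the eigen-summand with the index `r` sees. -/
abbrev Vis {ι : Type} (m r : ℕ) (e : ι → ℕ) : Type := {l : ι // ¬ m ∣ r * e l}

/-- The eigen-summand with the index `r` has big monodromy: a node of its visible factors, irreducible over
all algebraic extensions, and no alternating form up to a factor (unless `2 r = m`). -/
def BigS (k : Type) [Field k] {ι : Type} [Fintype ι] [DecidableEq ι] (m r : ℕ) (e nd : ι → ℕ)
    (a : ι → k[X][X]) : Prop :=
  ∃ N : ℕ, 2 ≤ N ∧ N + 1 = ∑ l : Vis m r e, nd l ∧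
    (∃ (i j : Vis m r e) (t₀ x₀ : k) (a₁ : Vis m r e → k[X]), m ∣ e i + e j ∧
      NodeG i j (fun l : Vis m r e => a l) t₀ x₀ a₁) ∧
    IrrG k m (fun l : Vis m r e => rho m r e l) N (fun l : Vis m r e => a l) ∧
    (2 * r = m ∨ N = 2 ∨ Odd N ∨
      NoBilG k m (fun l : Vis m r e => rho m r e l) N (fun l : Vis m r e => a l))

/-- J1. As `G_FewR` (helper4's `GX/FewR.lean`), from `G_Data`, `G_Half`, `G_FewA`, `X_Spread`, `G_FewA` for the index type
`Vis m r e`. There may be a different node for every `r` (the ring `A` contains `t₀`, `x₀` and the coefficients of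
`a₁` for all `r < m`). `dG m (rho m r e) nd` and the products `∏ a_j ^ (rho m r e j * c)` over `ι` and over `Vis m r e` are the
same (`rho m r e l = 0` for the invisible `l`). `ρ_i + ρ_j = m` from `m ∣ e i + e j`, `0 < ρ_i, ρ_j < m`; `m ∤ ∑ ρ_l nd_l`
over the visible `l`, because it is `≡ r ∑ e_l nd_l`; if `2 r = m` then `2 ρ_l = m` for the visible `l`; `dG < N` as in
`G_FewR`. -/
def J_FewR : Prop :=
  ∀ (K : Type) [Field K] [NumberField K] (ι : Type) [Fintype ι] [DecidableEq ι] (q m : ℕ)
    (e nd : ι → ℕ), 2 ≤ m → Nat.Coprime (∑ l, e l * nd l) m →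
    ∀ (a : ι → (Rp K q)[X][X]) (φ : (Rp K q)[X]), GenG nd a →
    (∀ r, 0 < r → r < m → BigS (Cl K q) m r e nd
      (fun l => (a l).map (mapRingHom (algebraMap (Rp K q) (Cl K q))))) → 1 ≤ φ.natDegree →
    ∀ G : ∀ r, MvPolynomial (Fin (dG m (rho m r e) nd) × Fin (dG m (rho m r e) nd)) (Rp K q)[X],
    (∀ r, G r ≠ 0) → FewR (fun v => m ∣ Ideal.absNorm v.asIdeal - 1) (GoodNp m e nd a φ G)

end Pool.Agent.Helper62.JX
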